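import Pool.Agent.helper74.FD.SpecF

/-!
# MP_07c750, project FD: row GAP
-/

set_option autoImplicit false

open MeasureTheory Filter Set
open scoped ContDiff Topology ComplexConjugate

namespace Pool.Agent.FD

theorem GAP_proof (hHUP : HUP_stmt) : GAP_stmt := by
  intro m a c ρ x hm hcs hw ha hρ hgap hsq hx
  obtain ⟨-, h2, -, h4, h5⟩ := hHUP m hm hcs hw
  set R : ℝ := ρ / 4 with hR
  set z0 : ℂ := (x : ℂ) + Complex.I with hz0
  set E : ℝ := 2 * Real.exp (-(Real.pi * a * ρ / 3)) with hE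
  have hR0 : 2 ≤ R := by rw [hR]; linarith
  have hpi : 3 < Real.pi := Real.pi_gt_three
  have hdist : ∀ w : ℂ, ‖w‖ ≤ R → ∀ ξ : ℝ, m ξ ≠ 0 → ρ / 2 ≤ ‖z0 + w + ξ‖ := by
    intro w hw' ξ hξ
    have h1 := hgap ξ hξ
    have h3 : ρ < |(-ξ) - c| := by
      by_contra hcon
      rw [not_lt, abs_le] at hcon
      exact h1 ⟨by linarith, by linarith⟩
    have h6 : (((-ξ) - c : ℝ) : ℂ) = -(z0 + w + ξ) + ((((x - c : ℝ) : ℂ) + Complex.I) + w) := by
      rw [hz0]; push_cast; ring
    have h7 : |(-ξ) - c| ≤ ‖z0 + w + ξ‖ + ((|x - c| + 1) + ‖w‖) := by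
      have e1 : |(-ξ) - c| = ‖(((-ξ) - c : ℝ) : ℂ)‖ := by rw [Complex.norm_real, Real.norm_eq_abs]
      rw [e1, h6]
      refine (norm_add_le _ _).trans (add_le_add (le_of_eq (norm_neg _)) ?_)
      refine (norm_add_le _ _).trans (add_le_add ((norm_add_le _ _).trans (add_le_add ?_ ?_)) le_rfl)
      · rw [Complex.norm_real, Real.norm_eq_abs]
      · rw [Complex.norm_I]
    linarith
  have hρ2 : 0 < ρ / 2 := by linarith
  have hfac : ∀ w : ℂ, ‖w‖ ≤ R → ‖Hf m (z0 + w)‖ ≤ 1 := by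
    intro w hw'
    refine (h4 (z0 + w) (ρ / 2) hρ2 (hdist w hw')).trans ?_
    rw [div_le_one (by positivity)]
    nlinarith
  have hdiff : ∀ w : ℂ, ‖w‖ ≤ R → DifferentiableAt ℂ (Hf m) (z0 + w) := fun w hw' =>
    h5 (z0 + w) (ρ / 2) hρ2 (hdist w hw')
  have hsmall : ∀ w : ℂ, ‖w‖ ≤ R → 2 * R / 3 ≤ w.im → ‖Hf m (z0 + w)‖ ≤ E := by
    intro w _ hwi
    have him : (z0 + w).im = 1 + w.im := by
      rw [hz0]; simp
    have hy : ρ / 6 ≤ (z0 + w).im := by rw [him]; linarith
    have hy1 : 1 ≤ (z0 + w).im := by rw [him]; linarith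
    have hypos : 0 < (z0 + w).im := by linarith
    have h := h2 (z0 + w) a hypos ha
    have e1 : Real.exp (-(2 * Real.pi * a * (z0 + w).im)) / (2 * Real.pi * (z0 + w).im) ≤
        Real.exp (-(Real.pi * a * ρ / 3)) := by
      have e2 : Real.exp (-(2 * Real.pi * a * (z0 + w).im)) ≤ Real.exp (-(Real.pi * a * ρ / 3)) := by
        apply Real.exp_le_exp.2
        have : Real.pi * a * (ρ / 6) ≤ Real.pi * a * (z0 + w).im :=
          mul_le_mul_of_nonneg_left hy (by positivity)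
        linarith
      refine (div_le_self (Real.exp_pos _).le ?_).trans e2
      nlinarith
    rw [hE]
    linarith
  -- the product
  set P : ℂ → ℂ := fun ζ => Hf m (z0 + ζ) * Hf m (z0 + Complex.I * ζ) * (Hf m (z0 + -ζ) * Hf m (z0 + -(Complex.I * ζ))) with hP
  have hn : ∀ ζ : ℂ, ‖Complex.I * ζ‖ = ‖ζ‖ := fun ζ => by rw [norm_mul, Complex.norm_I, one_mul]
  have hRpos : 0 < R := by linarith
  have hDC : DiffContOnCl ℂ P (Metric.ball 0 R) := by
    have hdP : ∀ ζ ∈ Metric.closedBall (0 : ℂ) R, DifferentiableAt ℂ P ζ := by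
      intro ζ hζ
      have hζ' : ‖ζ‖ ≤ R := by simpa using hζ
      have d1 : DifferentiableAt ℂ (fun ζ => Hf m (z0 + ζ)) ζ :=
        DifferentiableAt.comp ζ (f := fun ζ : ℂ => z0 + ζ) (hdiff ζ hζ') ((differentiableAt_const _).add differentiableAt_id)
      have d2 : DifferentiableAt ℂ (fun ζ => Hf m (z0 + Complex.I * ζ)) ζ :=
        DifferentiableAt.comp ζ (f := fun ζ : ℂ => z0 + Complex.I * ζ) (hdiff _ (by rw [hn]; exact hζ'))
          ((differentiableAt_const _).add ((differentiableAt_const _).mul differentiableAt_id))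
      have d3 : DifferentiableAt ℂ (fun ζ => Hf m (z0 + -ζ)) ζ :=
        DifferentiableAt.comp ζ (f := fun ζ : ℂ => z0 + -ζ) (hdiff _ (by rw [norm_neg]; exact hζ'))
          ((differentiableAt_const _).add differentiableAt_id.neg)
      have d4 : DifferentiableAt ℂ (fun ζ => Hf m (z0 + -(Complex.I * ζ))) ζ :=
        DifferentiableAt.comp ζ (f := fun ζ : ℂ => z0 + -(Complex.I * ζ)) (hdiff _ (by rw [norm_neg, hn]; exact hζ'))
          ((differentiableAt_const _).add ((differentiableAt_const _).mul differentiableAt_id).neg)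
      exact (d1.mul d2).mul (d3.mul d4)
    refine ⟨fun ζ hζ => (hdP ζ (Metric.ball_subset_closedBall hζ)).differentiableWithinAt, ?_⟩
    intro ζ hζ
    have : ζ ∈ Metric.closedBall (0 : ℂ) R := Metric.closure_ball_subset_closedBall hζ
    exact (hdP ζ this).continuousAt.continuousWithinAt
  have hE0 : 0 ≤ E := by positivity
  have hfr : ∀ ζ ∈ frontier (Metric.ball (0 : ℂ) R), ‖P ζ‖ ≤ E := by
    intro ζ hζ
    have hζR : ‖ζ‖ = R := by
      have := Metric.frontier_ball_subset_sphere hζ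
      simpa using this
    have b1 := hfac ζ hζR.le
    have b2 := hfac (Complex.I * ζ) (by rw [hn]; exact hζR.le)
    have b3 := hfac (-ζ) (by rw [norm_neg]; exact hζR.le)
    have b4 := hfac (-(Complex.I * ζ)) (by rw [norm_neg, hn]; exact hζR.le)
    have hns : ζ.re ^ 2 + ζ.im ^ 2 = R ^ 2 := by
      rw [← hζR, ← Complex.normSq_eq_norm_sq, Complex.normSq_apply]; ring
    have himI : (Complex.I * ζ).im = ζ.re := by simp
    have hPn : ‖P ζ‖ = ‖Hf m (z0 + ζ)‖ * ‖Hf m (z0 + Complex.I * ζ)‖ * (‖Hf m (z0 + -ζ)‖ * ‖Hf m (z0 + -(Complex.I * ζ))‖) := by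
      rw [hP]; simp only [norm_mul]
    rw [hPn]
    have hnn : ∀ z, 0 ≤ ‖Hf m z‖ := fun z => norm_nonneg _
    rcases le_or_gt (2 * R / 3) |ζ.im| with hc | hc
    · rcases le_abs.1 hc with hc | hc
      · have s1 := hsmall ζ hζR.le hc
        calc _ ≤ E * 1 * (1 * 1) := by gcongr
          _ = E := by ring
      · have s1 := hsmall (-ζ) (by rw [norm_neg]; exact hζR.le) (by rw [Complex.neg_im]; exact hc)
        calc _ ≤ 1 * 1 * (E * 1) := by gcongr
          _ = E := by ring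
    · have hc2 : 2 * R / 3 ≤ |ζ.re| := by
        by_contra hcon
        rw [not_le] at hcon
        have e1 : ζ.im ^ 2 < (2 * R / 3) ^ 2 := by
          rw [← sq_abs ζ.im]
          exact pow_lt_pow_left₀ hc (abs_nonneg _) (by norm_num)
        have e2 : ζ.re ^ 2 < (2 * R / 3) ^ 2 := by
          rw [← sq_abs ζ.re]
          exact pow_lt_pow_left₀ hcon (abs_nonneg _) (by norm_num)
        nlinarith
      rcases le_abs.1 hc2 with hc | hc
      · have s1 := hsmall (Complex.I * ζ) (by rw [hn]; exact hζR.le) (by rw [himI]; exact hc)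
        calc _ ≤ 1 * E * (1 * 1) := by gcongr
          _ = E := by ring
      · have s1 := hsmall (-(Complex.I * ζ)) (by rw [norm_neg, hn]; exact hζR.le) (by rw [Complex.neg_im, himI]; exact hc)
        calc _ ≤ 1 * 1 * (1 * E) := by gcongr
          _ = E := by ring
  have hmax : ‖P 0‖ ≤ E := Complex.norm_le_of_forall_mem_frontier_norm_le Metric.isBounded_ball hDC hfr
    (subset_closure (Metric.mem_ball_self hRpos))
  have hP0 : ‖P 0‖ = ‖Hf m z0‖ ^ 4 := by
    rw [hP]
    simp only [mul_zero, neg_zero, add_zero, norm_mul]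
    ring
  rw [hP0] at hmax
  have hfin : ‖Hf m z0‖ ^ 4 ≤ (2 * Real.exp (-(Real.pi * a * ρ / 12))) ^ 4 := by
    refine hmax.trans ?_
    rw [hE, mul_pow, ← Real.exp_nat_mul]
    have e : ((4 : ℕ) : ℝ) * -(Real.pi * a * ρ / 12) = -(Real.pi * a * ρ / 3) := by push_cast; ring
    rw [e]
    have := Real.exp_pos (-(Real.pi * a * ρ / 3))
    nlinarith
  exact le_of_pow_le_pow_left₀ (by norm_num) (by positivity) hfin

end Pool.Agent.FD
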