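import Pool.Agent.helper74.FD.SpecF

/-!
# MP_07c750, project FD: row HSM
-/

set_option autoImplicit false

open MeasureTheory Filter Set
open scoped ContDiff Topology ComplexConjugate

namespace Pool.Agent.FD

theorem HSM_proof (hHUP : HUP_stmt) (hGAP : GAP_stmt) (hHMU : HMU_stmt) (hSMQ : SMQ_stmt) (hLWQ : LWQ_stmt)
    (hPHL : PHL_stmt) : HSM_stmt := by
  intro m a ν x k n c ρ hm hcs hw ha hν hν1 hG h8 hgap hsq hx
  obtain ⟨-, -, -, h4, h5⟩ := hHUP m hm hcs hw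
  have hpi : 3 < Real.pi := Real.pi_gt_three
  set a' : ℝ := Real.pi * a / 12 with ha'
  have ha'0 : 0 < a' := by positivity
  set G : ℂ → ℂ := fun z => Hf m z * Complex.exp ((a' : ℂ) * sq n c ρ z) with hGd
  have hρ : ∀ i < n, 8 ≤ ρ i := by
    intro i hi
    rw [hG.size i hi]
    have : (2 : ℝ) ^ k ≤ 2 ^ (k + 2 * i) := pow_le_pow_right₀ (by norm_num) (by omega)
    have h2 : ν * 2 ^ k ≤ ν * 2 ^ (k + 2 * i) := mul_le_mul_of_nonneg_left this hν.le
    linarith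
  have hnG : ∀ z, ‖G z‖ = ‖Hf m z‖ * Real.exp (a' * (sq n c ρ z).re) := by
    intro z
    rw [hGd]
    simp only [norm_mul, Complex.norm_exp, Complex.re_ofReal_mul]
  have hdist : ∀ z : ℂ, 0 < z.im → ∀ ξ : ℝ, m ξ ≠ 0 → z.im ≤ ‖z + ξ‖ := by
    intro z hz ξ _
    have h1 := Complex.abs_im_le_norm (z + ξ)
    have h2 : (z + (ξ : ℂ)).im = z.im := by simp
    rw [h2] at h1
    exact (le_abs_self _).trans h1
  have hdsq : ∀ z : ℂ, 0 < z.im → DifferentiableAt ℂ (sq n c ρ) z := by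
    intro z hz
    have hd : ∀ i ∈ Finset.range n, DifferentiableAt ℂ (fun z => (ρ i : ℂ) * qh (c i - ρ i / 16) (c i + ρ i / 16) z) z := by
      intro i hi
      have h8i := hρ i (Finset.mem_range.1 hi)
      exact (differentiableAt_const _).mul (hHMU (c i - ρ i / 16) (c i + ρ i / 16) z (by linarith) hz).1
    exact DifferentiableAt.fun_sum hd
  have hresq : ∀ z : ℂ, 0 < z.im → (sq n c ρ z).re ≤ ∑ i ∈ Finset.range n, ρ i := by
    intro z hz
    rw [sq, Complex.re_sum]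
    refine Finset.sum_le_sum (fun i hi => ?_)
    have h8i := hρ i (Finset.mem_range.1 hi)
    rw [Complex.re_ofReal_mul]
    have := (hHMU (c i - ρ i / 16) (c i + ρ i / 16) z (by linarith) hz).2.2.1
    nlinarith
  have hHb : ∀ z : ℂ, 1 ≤ z.im → ‖Hf m z‖ ≤ 1 := by
    intro z hz
    have h := h4 z 1 one_pos (fun ξ hξ => hz.trans (hdist z (by linarith) ξ hξ))
    refine h.trans ?_
    rw [div_le_one (by positivity)]
    nlinarith
  have hdG : ∀ z : ℂ, 0 < z.im → DifferentiableAt ℂ G z := by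
    intro z hz
    have d1 : DifferentiableAt ℂ (Hf m) z := h5 z z.im hz (hdist z hz)
    exact d1.mul (((differentiableAt_const _).mul (hdsq z hz)).cexp)
  have hbG : ∀ z : ℂ, 1 ≤ z.im → ‖G z‖ ≤ Real.exp (a' * ∑ i ∈ Finset.range n, ρ i) := by
    intro z hz
    rw [hnG]
    have e1 := hHb z hz
    have e2 : Real.exp (a' * (sq n c ρ z).re) ≤ Real.exp (a' * ∑ i ∈ Finset.range n, ρ i) :=
      Real.exp_le_exp.2 (mul_le_mul_of_nonneg_left (hresq z (by linarith)) ha'0.le)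
    calc _ ≤ 1 * Real.exp (a' * ∑ i ∈ Finset.range n, ρ i) := mul_le_mul e1 e2 (Real.exp_pos _).le zero_le_one
      _ = _ := one_mul _
  have hMG : ∀ y : ℝ, ‖G (y + Complex.I)‖ ≤ 2 * Real.exp (a' * (34 + n * ν ^ 2 / 16)) := by
    intro y
    rw [hnG]
    rcases hSMQ ν k n c ρ y hν hν1 hG with ⟨i, hi, hyi, hs⟩ | ⟨-, hs⟩
    · have hg := hGAP m a (c i) (ρ i) y hm hcs hw ha (hρ i hi) (hgap i hi) (hsq i hi) hyi
      have e2 : Real.exp (a' * (sq n c ρ (y + Complex.I)).re) ≤ Real.exp (a' * (ρ i + 34 + n * ν ^ 2 / 16)) :=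
        Real.exp_le_exp.2 (mul_le_mul_of_nonneg_left hs ha'0.le)
      calc _ ≤ (2 * Real.exp (-(Real.pi * a * ρ i / 12))) * Real.exp (a' * (ρ i + 34 + n * ν ^ 2 / 16)) :=
            mul_le_mul hg e2 (Real.exp_pos _).le (by positivity)
        _ = 2 * (Real.exp (-(Real.pi * a * ρ i / 12)) * Real.exp (a' * (ρ i + 34 + n * ν ^ 2 / 16))) := by ring
        _ = _ := by rw [← Real.exp_add, ha']; congr 2; ring
    · have e1 : ‖Hf m ((y : ℂ) + Complex.I)‖ ≤ 2 := (hHb _ (by simp)).trans (by norm_num)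
      have e2 : Real.exp (a' * (sq n c ρ (y + Complex.I)).re) ≤ Real.exp (a' * (34 + n * ν ^ 2 / 16)) :=
        Real.exp_le_exp.2 (mul_le_mul_of_nonneg_left hs ha'0.le)
      exact mul_le_mul e1 e2 (Real.exp_pos _).le (by norm_num)
  have hfin := hPHL G _ _ hdG hbG hMG ((x : ℂ) + 256 * Complex.I) (by simp)
  rw [hnG] at hfin
  have hlow := hLWQ ν k n c ρ x hν hν1 hG hx
  have e3 : Real.exp (a' * (n * ν ^ 2 * (3 / 20))) ≤ Real.exp (a' * (sq n c ρ (x + 256 * Complex.I)).re) :=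
    Real.exp_le_exp.2 (mul_le_mul_of_nonneg_left hlow ha'0.le)
  have e4 : ‖Hf m (x + 256 * Complex.I)‖ * Real.exp (a' * (n * ν ^ 2 * (3 / 20))) ≤
      2 * Real.exp (a' * (34 + n * ν ^ 2 / 16)) :=
    (mul_le_mul_of_nonneg_left e3 (norm_nonneg _)).trans hfin
  have e5 : ‖Hf m (x + 256 * Complex.I)‖ ≤ 2 * Real.exp (a' * (34 + n * ν ^ 2 / 16)) / Real.exp (a' * (n * ν ^ 2 * (3 / 20))) := by
    rw [le_div_iff₀ (Real.exp_pos _)]; exact e4
  refine e5.trans ?_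
  rw [mul_div_assoc, ← Real.exp_sub]
  refine mul_le_mul_of_nonneg_left (Real.exp_le_exp.2 ?_) (by norm_num)
  have hn0 : 0 ≤ a' * (n * ν ^ 2) := by positivity
  nlinarith

end Pool.Agent.FD
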